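import Pool.Agent.Q30.FK.Stm2

/-!
# The restrictions of the last two classes to the centre
-/

namespace Q176.FK

open Q30.FK

variable {k : Type} [Field k] [CharP k 2]

theorem cup1_add_left (F F' G : Ch k) : cup1 (F + F') G = cup1 F G + cup1 F' G := by
  refine ch_ext (fun X n g => ?_)
  rw [coe_add_apply, cup1_apply, cup1_apply, cup1_apply, ← Finset.sum_add_distrib]
  refine Finset.sum_congr rfl (fun p _ => ?_)
  rw [← Finset.sum_add_distrib]
  refine Finset.sum_congr rfl (fun i _ => ?_)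
  rw [coe_add_apply, add_mul]

theorem cup1_add_right (F G G' : Ch k) : cup1 F (G + G') = cup1 F G + cup1 F G' := by
  refine ch_ext (fun X n g => ?_)
  rw [coe_add_apply, cup1_apply, cup1_apply, cup1_apply, ← Finset.sum_add_distrib]
  refine Finset.sum_congr rfl (fun p _ => ?_)
  rw [← Finset.sum_add_distrib]
  refine Finset.sum_congr rfl (fun i _ => ?_)
  rw [coe_add_apply, mul_add]

/-- The square of a sum with a closed summand. -/
theorem sq_add_closed {x : Ch k} (hx : dCh x = 0) (y : Ch k) :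
    Q30.FK.sq (x + y) = x * x + Q30.FK.sq y + dCh (cup1 x y) := by
  have h := homotopyCh x y
  rw [hx, cup1_zero_left, add_zero] at h
  unfold Q30.FK.sq
  rw [map_add, hx, zero_add, cup1_add_left]
  have h1 : x * y + y * x + cup1 x (dCh y) = dCh (cup1 x y) := by
    rw [h, add_assoc, ch_add_self, add_zero]
  rw [← h1, add_mul, mul_add, mul_add]
  abel

/-- The cochain depends only on the coordinates `a` and `b`. -/
def AB (F : Ch k) : Prop :=
  ∀ (X : Alg k) (n : ℕ) (g g' : ℕ → Bor X), (∀ i, ca (g i) = ca (g' i)) →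
    (∀ i, cb (g i) = cb (g' i)) → F.1 X n g = F.1 X n g'

theorem AB.add {F G : Ch k} (hF : AB F) (hG : AB G) : AB (F + G) := by
  intro X n g g' ha hb
  rw [coe_add_apply, coe_add_apply, hF X n g g' ha hb, hG X n g g' ha hb]

theorem AB.mul {F G : Ch k} (hF : AB F) (hG : AB G) : AB (F * G) := by
  intro X n g g' ha hb
  rw [coe_mul_apply, coe_mul_apply]
  refine Finset.sum_congr rfl (fun p _ => ?_)
  rw [hF X p.1 g g' ha hb, hG X p.2 (Ser.sh p.1 g) (Ser.sh p.1 g') (fun i => ha _) (fun i => hb _)]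

theorem AB.cup1 {F G : Ch k} (hF : AB F) (hG : AB G) : AB (cup1 F G) := by
  intro X n g g' ha hb
  rw [cup1_apply, cup1_apply]
  refine Finset.sum_congr rfl (fun p _ => Finset.sum_congr rfl (fun i _ => ?_))
  rw [hG X (p.2 + 1) (Ser.sh i g) (Ser.sh i g') (fun i => ha _) (fun i => hb _),
    hF X p.1 (Ser.cut i p.2 g) (Ser.cut i p.2 g')]
  · intro j
    unfold Ser.cut
    split_ifs
    · exact ha _
    · exact ha _
  · intro j
    unfold Ser.cut
    split_ifs
    · exact hb _
    · exact hb _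

theorem AB.dCh {F : Ch k} (hF : AB F) : AB (dCh F) := by
  intro X n g g' ha hb
  cases n with
  | zero => rfl
  | succ n =>
    rw [dCh_succ, dCh_succ]
    refine Finset.sum_congr rfl (fun l _ => ?_)
    refine hF X n _ _ ?_ ?_
    · intro j
      unfold Ser.skip
      split_ifs
      · exact ha _
      · exact ha _
    · intro j
      unfold Ser.skip
      split_ifs
      · exact hb _
      · exact hb _

theorem AB.sq {F : Ch k} (hF : AB F) : AB (Q30.FK.sq F) := (hF.mul hF).add (hF.cup1 hF.dCh)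

theorem AB.cn {F : Ch k} (hF : AB F) : AB (cn F) := by
  intro X n g g' ha hb
  rw [cn_apply, cn_apply]
  refine hF X (n + 1) _ _ ?_ ?_
  · intro j
    cases j with
    | zero => rfl
    | succ j => exact ha j
  · intro j
    cases j with
    | zero => rfl
    | succ j => exact hb j

theorem AB.fa : AB (fa k) := by
  intro X n g g' ha hb
  change (if n = 0 then ca (g 0) else 0) = if n = 0 then ca (g' 0) else 0
  rw [ha 0]

theorem AB.fb : AB (fb k) := by
  intro X n g g' ha hb
  change (if n = 0 then cb (g 0) else 0) = if n = 0 then cb (g' 0) else 0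
  rw [hb 0]

theorem AB.vv : AB (vv k) := by
  intro X n g g' ha hb
  change (if n = 4 then vpol (pa g) (pb g) else 0) = if n = 4 then vpol (pa g') (pb g') else 0
  have h1 : pa g = pa g' := by
    funext i
    unfold pa
    rw [ha i, ha (i + 1)]
  have h2 : pb g = pb g' := by
    funext i
    unfold pb
    rw [hb i, hb (i + 1)]
  rw [h1, h2]

theorem AB.mem {F : Ch k} (hF : AB F) : F ∈ inv k (En k 2) := by
  intro X h hh n g
  obtain ⟨h0, h1, h2, h3, h4⟩ := hh
  refine hF X n _ _ ?_ ?_
  · intro i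
    rw [ca_mul]
    unfold wa
    rw [h0, h1, one_pow, one_mul, one_mul]
    have e : ca h = 0 := by
      unfold ca
      rw [h3, zero_mul]
    rw [e, zero_add]
  · intro i
    rw [cb_mul]
    unfold wb
    rw [h1, h2, one_pow, one_mul, one_mul]
    have e : cb h = 0 := by
      unfold cb
      rw [h4, zero_mul]
    rw [e, zero_add]

/-- A closed homogeneous cochain of positive degree which depends only on the coordinates `a` and
`b` is the differential of such a cochain. -/
theorem AB.exact {F : Ch k} (hF : AB F) {n : ℕ} (hn : n ≠ 0) (hH : Hom n F)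
    (hd : Q30.FK.dCh F = 0) : Q30.FK.dCh (Q30.FK.cn F) = F := by
  have h := cn_formula F
  rw [hd, map_zero, add_zero] at h
  have e : ev0 F = 0 := hH _ 0 _ (Ne.symm hn)
  rw [h, e, map_zero, add_zero]

theorem hom_fa : Hom 0 (fa k) := hom_fnN _ _ _ _

theorem hom_fb : Hom 0 (fb k) := hom_fnN _ _ _ _

theorem hom_vv : Hom 4 (vv k) := hom_fnN _ _ _ _

theorem en_sub (X : Alg k) : En k 2 X ⊆ En k 6 X := by
  rintro h ⟨h0, h1, h2, -, -⟩
  exact ⟨h0, h1, h2⟩

theorem sq_closed {x : Ch k} (hx : dCh x = 0) : dCh (x * x) = 0 := by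
  rw [leibCh, hx, zero_mul, mul_zero, add_zero]

theorem zz_eq {x : Ch k} (hx : dCh x = 0) (u : Ch k) :
    (x * x + dCh u) * (x * x + dCh u) =
      x ^ 4 + dCh (x * x * u + u * (x * x) + u * dCh u) := by
  have hxx := sq_closed hx
  rw [map_add, map_add, leibCh (x * x) u, leibCh u (x * x), leibCh u (dCh u), hxx, dCh_dCh]
  simp only [zero_mul, mul_zero, zero_add, add_zero]
  have e4 : x ^ 4 = x * x * (x * x) := by
    rw [← pow_two x, ← pow_add]
  rw [e4, add_mul, mul_add, mul_add]
  abel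

theorem part_one {x b v c : Ch k} (hx : dCh x = 0) (hxm : x ∈ inv k (En k 2)) (hb : AB b)
    (hHb : Hom 1 b) (hv : AB v) (hHv : Hom 4 v)
    (hc : c = Q30.FK.sq (Q30.FK.sq (x + b)) + v) (hdc : dCh c = 0) :
    ∃ y ∈ inv k (En k 2), dCh y = c - x ^ 4 := by
  have hum : cup1 x b ∈ inv k (En k 2) := cup1_mem hxm hb.mem
  have e1 := sq_add_closed hx b
  generalize cup1 x b = u at e1 hum
  have hz : dCh (x * x + dCh u) = 0 := by rw [map_add, sq_closed hx, dCh_dCh, add_zero]
  have e2 : Q30.FK.sq (x + b) = (x * x + dCh u) + Q30.FK.sq b := by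
    rw [e1]
    abel
  have hzm : x * x + dCh u ∈ inv k (En k 2) := add_mem (mul_mem hxm hxm) (dCh_mem hum)
  have hzz := zz_eq hx u
  generalize x * x + dCh u = z at e2 hz hzm hzz
  have e3 := sq_add_closed hz (Q30.FK.sq b)
  rw [← e2] at e3
  have hA : x * x * u + u * (x * x) + u * dCh u ∈ inv k (En k 2) :=
    add_mem (add_mem (mul_mem (mul_mem hxm hxm) hum) (mul_mem hum (mul_mem hxm hxm)))
      (mul_mem hum (dCh_mem hum))
  generalize x * x * u + u * (x * x) + u * dCh u = a at hzz hA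
  have hB : cup1 z (Q30.FK.sq b) ∈ inv k (En k 2) := cup1_mem hzm hb.sq.mem
  generalize cup1 z (Q30.FK.sq b) = b' at e3 hB
  have hR : AB (Q30.FK.sq (Q30.FK.sq b) + v) := hb.sq.sq.add hv
  have hHR : Hom 4 (Q30.FK.sq (Q30.FK.sq b) + v) := hHb.sq.sq.add hHv
  rw [e3, hzz] at hc
  have hx4 : dCh (x ^ 4) = 0 := dCh_pow hx 4
  generalize Q30.FK.sq (Q30.FK.sq b) = s at hR hHR hc
  generalize x ^ 4 = w at hc hx4
  have hdR : dCh (s + v) = 0 := by
    rw [hc, map_add, map_add, map_add, map_add, hx4, dCh_dCh, dCh_dCh, zero_add, zero_add,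
      add_zero] at hdc
    rw [map_add]
    exact hdc
  refine ⟨a + b' + cn (s + v), add_mem (add_mem hA hB) hR.cn.mem, ?_⟩
  rw [map_add, map_add, hR.exact (by norm_num) hHR hdR, hc]
  abel

theorem part_two {x b c : Ch k} (hx : dCh x = 0) (hxm : x ∈ inv k (En k 2)) (hb : AB b)
    (hHb : Hom 1 b) (hc : c = Q30.FK.sq (x + b)) (hdc : dCh c = 0) :
    ∃ y ∈ inv k (En k 2), dCh y = c - x ^ 2 := by
  have e1 := sq_add_closed hx b
  rw [e1] at hc
  have hdR : dCh (Q30.FK.sq b) = 0 := by
    rw [hc, map_add, map_add, sq_closed hx, dCh_dCh, add_zero, zero_add] at hdc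
    exact hdc
  refine ⟨cup1 x b + cn (Q30.FK.sq b), add_mem (cup1_mem hxm hb.mem) hb.sq.cn.mem, ?_⟩
  rw [map_add, hb.sq.exact (by norm_num) hHb.sq hdR, hc, pow_two]
  abel

/-- Job IDN. -/
theorem idn : P_CLS → P_IDN := by
  intro hC k _ _
  obtain ⟨hcls, hg, hg', -, -⟩ := hC k
  have hg2 : gam k ∈ inv k (En k 2) := inv_mono en_sub hg
  have hg2' : gam' k ∈ inv k (En k 2) := inv_mono en_sub hg'
  constructor
  · have hb : AB (fa k * dCh (fb k)) := AB.fa.mul AB.fb.dCh
    have e : dCh (fc k) = gam k - fa k * dCh (fb k) := by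
      unfold gam
      rw [add_sub_cancel_right]
    refine part_one (dCh_dCh _) ?_ hb (hom_fa.mul hom_fb.dCh) AB.vv hom_vv rfl (hcls 4).2.1
    rw [e]
    exact sub_mem hg2 hb.mem
  · have hb : AB (fa k * fa k * dCh (fb k * fb k)) :=
      (AB.fa.mul AB.fa).mul (AB.fb.mul AB.fb).dCh
    have e : dCh (fc k * fc k) = gam' k - fa k * fa k * dCh (fb k * fb k) := by
      unfold gam'
      rw [add_sub_cancel_right]
    refine part_two (dCh_dCh _) ?_ hb ((hom_fa.mul hom_fa).mul (hom_fb.mul hom_fb).dCh) rfl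
      (hcls 5).2.1
    rw [e]
    exact sub_mem hg2' hb.mem

end Q176.FK
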